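import Pool.Agent.Results.MP_aaa0df_nt.PolynomialFamilies
import Pool.Agent.V11326.WW

/-!
# Small split primes in ALL quadratic fields `ℚ(√(f(n)))`, `n` in windows around a thin sequence

Let `f` be an integer polynomial which is not a constant times a square of a polynomial (for instance `f(n) = -n`), let
`A > 1` and `ε > 0`. There is `c > 0` such that the following holds. Let `v ≥ 1` be a sequence with exponent of convergence
at most `τ` (for `v_m = b ^ m` it is `0`, for `v_m = m ^ a` it is `1 / a`) and `θ < 1`. For all `α > 0` outside a set of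
Hausdorff dimension at most `(1 - c + τ) / (1 - θ)`, all large `m` and ALL `n` with `|n - α v_m| ≤ v_m ^ θ`, the
discriminant `d` of `ℚ(√(f(n)))` has `|d| > n ^ (1/16)`, half of the primes up to `y` split in the field up to an error
`ε π(y)` for all `(log |d|) ^ A ≤ y ≤ |d| ^ c`, and at least `(log |d|) ^ (2 - ε)` primes
`p < (log |d|) ^ 2 (log log |d|) ^ 2` split in it.
-/

set_option autoImplicit false

open Polynomial

namespace Pool.Agent.Results.MP_aaa0df_nt.AllFieldsInWindows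

/-- the exponent of convergence of the sequence `v` is at most `τ` -/
def ExpLe (v : ℕ → ℝ) (τ : ℝ) : Prop := ∀ t : ℝ, τ < t → Summable (fun n : ℕ => (v n) ^ (-t))

/-- fundamental discriminants (including `1`), as in the frozen statements -/
def Fund (d : ℤ) : Prop := (d % 4 = 1 ∧ Squarefree d) ∨
  (∃ m : ℤ, d = 4 * m ∧ (m % 4 = 2 ∨ m % 4 = 3) ∧ Squarefree m)

/-- the primes `p` with `P p` which split in the field of discriminant `d`: `p` does not divide `d`, and `d` is a square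
modulo `4 p` -/
def Split (P : ℕ → Prop) (d : ℤ) : Set ℕ := {p : ℕ | p.Prime ∧ P p ∧ ¬ ((p : ℤ) ∣ d) ∧ ∃ x : ℤ, (4 * (p : ℤ)) ∣ x ^ 2 - d}

/-- the properties of the fields `ℚ(√w)`, `w` an integer of size about a power of `n` -/
def Good (A ε c : ℝ) (n : ℕ) (w : ℤ) : Prop := ∀ d : ℤ, Fund d → IsSquare (w * d) →
  (d ≠ 1 ∧ w ≠ 0 ∧ (n : ℝ) ^ (1 / 16 : ℝ) < |(d : ℝ)|) ∧
  (∀ y : ℕ, Real.log |(d : ℝ)| ^ A ≤ y → (y : ℝ) ≤ |(d : ℝ)| ^ c →
    |((Split (fun p => p ≤ y) d).ncard : ℝ) - (Nat.primeCounting y : ℝ) / 2| ≤ ε * Nat.primeCounting y) ∧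
  Real.log |(d : ℝ)| ^ (2 - ε) ≤
    ((Split (fun p => (p : ℝ) < Real.log |(d : ℝ)| ^ 2 * Real.log (Real.log |(d : ℝ)|) ^ 2) d).ncard : ℝ)

/-- **Theorem.** Let `f` be an integer polynomial which is not a constant times a square of a polynomial, `A > 1` and
`ε > 0`. There is `0 < c ≤ 1 / 2` such that for every sequence `v ≥ 1` of exponent of convergence at most `τ` and `θ < 1`
there is a set `E` of Hausdorff dimension at most `(1 - c + τ) / (1 - θ)` such that for all `α > 0` outside `E`, all large `m`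
and ALL `n` with `|n - α v_m| ≤ v_m ^ θ` the field of discriminant `d`, where `f(n) d` is a square (the field `ℚ(√(f(n)))`)
has: `|d| > n ^ (1/16)`; the number of the primes `p ≤ y` which split is `π(y) / 2` up to `ε π(y)` for all `y` with
`(log |d|) ^ A ≤ y ≤ |d| ^ c`; and at least `(log |d|) ^ (2 - ε)` primes `p < (log |d|) ^ 2 (log log |d|) ^ 2` split.
The sequences `v_m = (m + 1) ^ a` and `v_m = b ^ m` have exponent of convergence at most `1 / a` and `0`. -/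
theorem result :
    (∀ f : ℤ[X], (∀ (c : ℚ) (g : ℚ[X]), f.map (Int.castRingHom ℚ) ≠ C c * g ^ 2) →
      ∀ A ε : ℝ, 1 < A → 0 < ε → ∃ c : ℝ, 0 < c ∧ c ≤ 1 / 2 ∧
      ∀ (v : ℕ → ℝ) (τ θ : ℝ), (∀ n, 1 ≤ v n) → 0 ≤ τ → ExpLe v τ → θ < 1 →
      ∃ E : Set ℝ, dimH E ≤ ENNReal.ofReal ((1 - c + τ) / (1 - θ)) ∧ ∀ α : ℝ, 0 < α → α ∉ E →
        ∃ m₀ : ℕ, ∀ m : ℕ, m₀ ≤ m → ∀ n : ℕ, |(n : ℝ) - α * v m| ≤ (v m) ^ θ → Good A ε c n (f.eval (n : ℤ))) ∧
    (∀ a : ℝ, 0 < a → ExpLe (fun n : ℕ => ((n : ℝ) + 1) ^ a) (1 / a)) ∧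
    (∀ b : ℝ, 1 < b → ExpLe (fun n : ℕ => b ^ n) 0) := by
  classical
  refine ⟨?_, fun κ hκ => Pool.Agent.Y854.GM.expLe_pow κ hκ, fun b hb => Pool.Agent.Y854.GM.expLe_geom b hb⟩
  intro f hf A ε hA hε
  obtain ⟨c, C₀, hc, hC₀, h⟩ := Pool.Agent.Results.MP_aaa0df_nt.PolynomialFamilies.result f hf A hA ε hε
  refine ⟨min c (1 / 2), lt_min hc (by norm_num), min_le_right _ _, fun v τ θ hv hτ hE hθ1 => ?_⟩
  obtain ⟨E, hE1, hE2⟩ := Pool.Agent.V11326.WW.nat_windows (ι := Unit)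
    (fun _ => {n : ℕ | ¬ Good A ε (min c (1 / 2)) n (f.eval (n : ℤ))})
    (s := 1 - min c (1 / 2)) (by linarith [min_le_right c (1 / 2)])
    (fun _ => ⟨_, Pool.Agent.V11326.WW.fam_count hc hC₀.le 1
      (fun n : ℕ => Good A ε (min c (1 / 2)) n (f.eval (n : ℤ)))
      (fun N n : ℕ => 1 ≤ n → ∀ d : ℤ, ((d % 4 = 1 ∧ Squarefree d) ∨
        (∃ m : ℤ, d = 4 * m ∧ (m % 4 = 2 ∨ m % 4 = 3) ∧ Squarefree m)) →
        IsSquare (f.eval (n : ℤ) * d) →
        (d ≠ 1 ∧ f.eval (n : ℤ) ≠ 0 ∧ (N : ℝ) ^ (1 / 16 : ℝ) < |(d : ℝ)|) ∧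
        (∀ y : ℕ, Real.log |(d : ℝ)| ^ A ≤ y → (y : ℝ) ≤ |(d : ℝ)| ^ c →
          |(Set.ncard {p : ℕ | p.Prime ∧ p ≤ y ∧ ¬ ((p : ℤ) ∣ d) ∧
            ∃ x : ℤ, (4 * (p : ℤ)) ∣ x ^ 2 - d} : ℝ) - (Nat.primeCounting y : ℝ) / 2| ≤
              ε * Nat.primeCounting y) ∧
        Real.log |(d : ℝ)| ^ (2 - ε) ≤ (Set.ncard {p : ℕ | p.Prime ∧
            ((p : ℝ) < Real.log |(d : ℝ)| ^ 2 * Real.log (Real.log |(d : ℝ)|) ^ 2) ∧
            ¬ ((p : ℤ) ∣ d) ∧ ∃ x : ℤ, (4 * (p : ℤ)) ∣ x ^ 2 - d} : ℝ))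
      (by
        intro N n hN hn1 hn2 hQ d hd hsq
        have hN1 : (1 : ℝ) ≤ N := hN
        have hnN : (n : ℝ) ≤ N := by exact_mod_cast hn2
        have hn3 : (1 : ℝ) ≤ n := (Real.one_le_rpow hN1 (by norm_num)).trans hn1
        have hn4 : 1 ≤ n := by exact_mod_cast hn3
        obtain ⟨⟨h1, h2, h3⟩, h4, h5⟩ := hQ hn4 d hd hsq
        refine ⟨⟨h1, h2, lt_of_le_of_lt ?_ h3⟩, fun y hy1 hy2 => h4 y hy1 (hy2.trans ?_), h5⟩
        · exact Real.rpow_le_rpow (by linarith) hnN (by norm_num)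
        · have h6 : (1 : ℝ) ≤ |(d : ℝ)| := (Real.one_le_rpow hN1 (by norm_num)).trans h3.le
          exact Real.rpow_le_rpow_of_exponent_le h6 (min_le_left _ _))
      (fun N hN => by
        obtain ⟨E, h1, h2⟩ := h N hN
        exact ⟨E, h1, fun n hn hnE hn1 d hd hsq => h2 n hn1 hn hnE d hd hsq⟩)⟩)
    hv hτ hE hθ1
  refine ⟨E, hE1, fun α hα hαE => ?_⟩
  obtain ⟨m₀, hm⟩ := hE2 α hα hαE ()
  exact ⟨m₀, fun m hm1 n hw => not_not.1 (hm m hm1 n hw)⟩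

end Pool.Agent.Results.MP_aaa0df_nt.AllFieldsInWindows
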