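import Pool.Agent.Results.MP_aaa0df_nt.PolynomialFamilies
import Pool.Agent.V11326.WW
import Pool.Agent.V11312.PW.Classes

/-!
# Small split primes in ALL quadratic fields `ℚ(√(f(n)))`, `n` near almost every `q`-adic point

Let `f` be an integer polynomial which is not a constant times a square of a polynomial (for instance `f(n) = -n`), let
`A > 1` and `ε > 0`. There is `c > 0` such that the following holds. Let `q_1, …, q_r` be primes and `σ > 0`. For all points `α`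
of the product of the rings `ℤ_(q_l)` outside a set of Hausdorff dimension at most `(1 - c) / σ` (less than the dimension `r`
of the space if `r σ > 1 - c`), all large `T` and ALL `n ≤ T` with `|n - α_l| ≤ T ^ (-σ)` in `ℤ_(q_l)` for all `l` (residue
classes; for `r σ < 1` there are about `T ^ (1 - r σ)` such `n`), the discriminant `d` of `ℚ(√(f(n)))` has `|d| > n ^ (1/16)`,
half of the primes up to `y` split in the field up to an error `ε π(y)` for all `(log |d|) ^ A ≤ y ≤ |d| ^ c`, and at least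
`(log |d|) ^ (2 - ε)` primes `p < (log |d|) ^ 2 (log log |d|) ^ 2` split in it.
-/

set_option autoImplicit false

open Polynomial

namespace Pool.Agent.Results.MP_aaa0df_nt.FieldsInResidueClasses

open Pool.Agent.V11312.PW

/-- fundamental discriminants (including `1`), as in the frozen statements -/
def Fund (d : ℤ) : Prop := (d % 4 = 1 ∧ Squarefree d) ∨
  (∃ m : ℤ, d = 4 * m ∧ (m % 4 = 2 ∨ m % 4 = 3) ∧ Squarefree m)

/-- the primes `p` with `P p` which split in the field of discriminant `d`: `p` does not divide `d`, and `d` is a square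
modulo `4 p` -/
def Split (P : ℕ → Prop) (d : ℤ) : Set ℕ := {p : ℕ | p.Prime ∧ P p ∧ ¬ ((p : ℤ) ∣ d) ∧ ∃ x : ℤ, (4 * (p : ℤ)) ∣ x ^ 2 - d}

/-- the properties of the fields `ℚ(√w)`, `w` an integer of size about a power of `n` -/
def Good (A ε c : ℝ) (n : ℕ) (w : ℤ) : Prop := ∀ d : ℤ, Fund d → IsSquare (w * d) →
  (d ≠ 1 ∧ w ≠ 0 ∧ (n : ℝ) ^ (1 / 16 : ℝ) < |(d : ℝ)|) ∧
  (∀ y : ℕ, Real.log |(d : ℝ)| ^ A ≤ y → (y : ℝ) ≤ |(d : ℝ)| ^ c →
    |((Split (fun p => p ≤ y) d).ncard : ℝ) - (Nat.primeCounting y : ℝ) / 2| ≤ ε * Nat.primeCounting y) ∧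
  Real.log |(d : ℝ)| ^ (2 - ε) ≤
    ((Split (fun p => (p : ℝ) < Real.log |(d : ℝ)| ^ 2 * Real.log (Real.log |(d : ℝ)|) ^ 2) d).ncard : ℝ)

/-- For all large `T`, all `n ≤ T` near `α` have `Good A ε c n (f(n))`. -/
def GoodNear (A ε c : ℝ) (f : ℤ[X]) {r : ℕ} (q : Fin r → ℕ) [∀ l, Fact (q l).Prime] (σ : ℝ) (α : ∀ l, ℤ_[q l]) : Prop :=
  ∃ T₀ : ℝ, ∀ T ≥ T₀, ∀ n : ℕ, Near q σ T α n → Good A ε c n (f.eval (n : ℤ))

/-- the integer polynomials which are not a constant times a square -/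
def NotSquare (f : ℤ[X]) : Prop := ∀ (c : ℚ) (g : ℚ[X]), f.map (Int.castRingHom ℚ) ≠ C c * g ^ 2

/-- **Theorem.** (1) Let `f` be an integer polynomial which is not a constant times a square of a polynomial, `A > 1` and
`ε > 0`. There is `0 < c ≤ 1 / 2` such that for all primes `q_1, …, q_r` and `σ > 0` there is a set `E` of points of the product
of the `ℤ_(q_l)` of Hausdorff dimension at most `(1 - c) / σ` such that for all `α ∉ E`, all large `T` and ALL `n ≤ T` with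
`|n - α_l| ≤ T ^ (-σ)` for all `l` the field of discriminant `d`, where `f(n) d` is a square (the field `ℚ(√(f(n)))`) has:
`|d| > n ^ (1/16)`; the number of the primes `p ≤ y` which split is `π(y) / 2` up to `ε π(y)` for all `y` with
`(log |d|) ^ A ≤ y ≤ |d| ^ c`; and at least `(log |d|) ^ (2 - ε)` primes `p < (log |d|) ^ 2 (log log |d|) ^ 2` split.
(2) For `r ≥ 1` there are sets `E_(f,i)` (countably many) of dimension less than `r` such that for all `α` outside of all of them,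
ALL such `f` and all `i` the conclusion of (1) holds with `A = 1 + 1 / (i + 1)`, `ε = 1 / (i + 1)` and some `c > 0` and `σ` with
`r σ < 1`. -/
theorem result :
    (∀ f : ℤ[X], NotSquare f → ∀ A ε : ℝ, 1 < A → 0 < ε → ∃ c : ℝ, 0 < c ∧ c ≤ 1 / 2 ∧
      ∀ (r : ℕ) (q : Fin r → ℕ) [∀ l, Fact (q l).Prime] (σ : ℝ), 0 < σ →
      ∃ E : Set (∀ l, ℤ_[q l]), dimH E ≤ ENNReal.ofReal ((1 - c) / σ) ∧ ∀ α ∉ E, GoodNear A ε c f q σ α) ∧
    (∀ (r : ℕ) (q : Fin r → ℕ) [∀ l, Fact (q l).Prime], 1 ≤ r →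
      ∃ E : ℤ[X] → ℕ → Set (∀ l, ℤ_[q l]), (∀ f i, dimH (E f i) < r) ∧ ∀ α : (∀ l, ℤ_[q l]), (∀ f i, α ∉ E f i) →
        ∀ f : ℤ[X], NotSquare f → ∀ i : ℕ, ∃ c σ : ℝ, 0 < c ∧ 0 < σ ∧ r * σ < 1 ∧
          GoodNear (1 + 1 / ((i : ℝ) + 1)) (1 / ((i : ℝ) + 1)) c f q σ α) := by
  classical
  have main : ∀ f : ℤ[X], NotSquare f → ∀ A ε : ℝ, 1 < A → 0 < ε → ∃ c : ℝ, 0 < c ∧ c ≤ 1 / 2 ∧
      ∀ (r : ℕ) (q : Fin r → ℕ) [∀ l, Fact (q l).Prime] (σ : ℝ), 0 < σ →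
      ∃ E : Set (∀ l, ℤ_[q l]), dimH E ≤ ENNReal.ofReal ((1 - c) / σ) ∧ ∀ α ∉ E, GoodNear A ε c f q σ α := by
    intro f hf A ε hA hε
    obtain ⟨c, C₀, hc, hC₀, h⟩ := Pool.Agent.Results.MP_aaa0df_nt.PolynomialFamilies.result f hf A hA ε hε
    refine ⟨min c (1 / 2), lt_min hc (by norm_num), min_le_right _ _, fun r q _ σ hσ => ?_⟩
    obtain ⟨E, hE1, hE2⟩ := nat_classes (ι := Unit)
      (fun _ => {n : ℕ | ¬ Good A ε (min c (1 / 2)) n (f.eval (n : ℤ))})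
      (s := 1 - min c (1 / 2)) (by linarith [min_le_right c (1 / 2)])
      (fun _ => ⟨_, Pool.Agent.V11326.WW.fam_count hc hC₀.le 1
        (fun n : ℕ => Good A ε (min c (1 / 2)) n (f.eval (n : ℤ)))
        (fun N n : ℕ => 1 ≤ n → ∀ d : ℤ, ((d % 4 = 1 ∧ Squarefree d) ∨
          (∃ m : ℤ, d = 4 * m ∧ (m % 4 = 2 ∨ m % 4 = 3) ∧ Squarefree m)) →
          IsSquare (f.eval (n : ℤ) * d) →
          (d ≠ 1 ∧ f.eval (n : ℤ) ≠ 0 ∧ (N : ℝ) ^ (1 / 16 : ℝ) < |(d : ℝ)|) ∧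
          (∀ y : ℕ, Real.log |(d : ℝ)| ^ A ≤ y → (y : ℝ) ≤ |(d : ℝ)| ^ c →
            |(Set.ncard {p : ℕ | p.Prime ∧ p ≤ y ∧ ¬ ((p : ℤ) ∣ d) ∧
              ∃ x : ℤ, (4 * (p : ℤ)) ∣ x ^ 2 - d} : ℝ) - (Nat.primeCounting y : ℝ) / 2| ≤
                ε * Nat.primeCounting y) ∧
          Real.log |(d : ℝ)| ^ (2 - ε) ≤ (Set.ncard {p : ℕ | p.Prime ∧
              ((p : ℝ) < Real.log |(d : ℝ)| ^ 2 * Real.log (Real.log |(d : ℝ)|) ^ 2) ∧
              ¬ ((p : ℤ) ∣ d) ∧ ∃ x : ℤ, (4 * (p : ℤ)) ∣ x ^ 2 - d} : ℝ))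
        (by
          intro N n hN hn1 hn2 hQ d hd hsq
          have hN1 : (1 : ℝ) ≤ N := hN
          have hnN : (n : ℝ) ≤ N := by exact_mod_cast hn2
          have hn3 : (1 : ℝ) ≤ n := (Real.one_le_rpow hN1 (by norm_num)).trans hn1
          have hn4 : 1 ≤ n := by exact_mod_cast hn3
          obtain ⟨⟨h1, h2, h3⟩, h4, h5⟩ := hQ hn4 d hd hsq
          refine ⟨⟨h1, h2, lt_of_le_of_lt ?_ h3⟩, fun y hy1 hy2 => h4 y hy1 (hy2.trans ?_), h5⟩
          · exact Real.rpow_le_rpow (by linarith) hnN (by norm_num)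
          · have h6 : (1 : ℝ) ≤ |(d : ℝ)| := (Real.one_le_rpow hN1 (by norm_num)).trans h3.le
            exact Real.rpow_le_rpow_of_exponent_le h6 (min_le_left _ _))
        (fun N hN => by
          obtain ⟨E, h1, h2⟩ := h N hN
          exact ⟨E, h1, fun n hn hnE hn1 d hd hsq => h2 n hn1 hn hnE d hd hsq⟩)⟩)
      q hσ
    refine ⟨E, hE1, fun α hα => ?_⟩
    obtain ⟨T₀, hT⟩ := hE2 α hα ()
    exact ⟨T₀, fun T hTT n hn => not_not.1 (hT T hTT n hn)⟩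
  refine ⟨main, fun r q _ hr => ?_⟩
  obtain ⟨E, hE1, hE2⟩ := small hr q (J := {f : ℤ[X] // NotSquare f} × ℕ)
    (fun j σ α => ∃ c : ℝ, 0 < c ∧ GoodNear (1 + 1 / ((j.2 : ℝ) + 1)) (1 / ((j.2 : ℝ) + 1)) c j.1.1 q σ α)
    (fun j => by
      obtain ⟨c, hc, hc2, h⟩ := main j.1.1 j.1.2 (1 + 1 / ((j.2 : ℝ) + 1)) (1 / ((j.2 : ℝ) + 1))
        (by linarith [show (0 : ℝ) < 1 / ((j.2 : ℝ) + 1) by positivity]) (by positivity)
      refine ⟨c, hc, hc2, fun σ hσ => ?_⟩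
      obtain ⟨E, h1, h2⟩ := h r q σ hσ
      exact ⟨E, h1, fun α hα => ⟨c, hc, h2 α hα⟩⟩)
  refine ⟨fun f i => if hf : NotSquare f then E (⟨f, hf⟩, i) else ∅, fun f i => ?_, fun α hα f hf i => ?_⟩
  · dsimp only
    split_ifs with hf
    · exact hE1 _
    · rw [dimH_empty]
      exact_mod_cast hr
  · obtain ⟨σ, h1, h2, c, h3, h4⟩ := hE2 α (fun j hj => by
      have h5 := hα j.1.1 j.2
      simp only [dif_pos j.1.2] at h5
      exact h5 hj) (⟨f, hf⟩, i)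
    exact ⟨c, σ, h3, h1, h2, h4⟩

end Pool.Agent.Results.MP_aaa0df_nt.FieldsInResidueClasses
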