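import Pool.Agent.Results.MP_aaa0df_nt.PolynomialFamilies
import Pool.Agent.V11326.WW
import Pool.Agent.V11153.NearW

/-!
# Small split primes in ALL quadratic fields `ℚ(√(f(n)))`, `n` near the powers of almost every number, for all `f` at once

Let `ν m / log m → ∞`, for example `ν m = m`. For almost every real `x > 1`, for ALL integer polynomials `f` which are not a
constant times a square of a polynomial (for instance `f(n) = -n`), all rational `A > 1` and `ε > 0` and all `θ < c`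
(`c > 0` depends on `f`, `A`, `ε`), all but finitely many natural numbers `n` with `|n - x ^ (ν m)| ≤ x ^ (θ ν m)` for some
`m` have the following property: the discriminant `d` of `ℚ(√(f(n)))` has `|d| > n ^ (1/16)`, half of the primes up to `y`
split in the field up to an error `ε π(y)` for all `(log |d|) ^ A ≤ y ≤ |d| ^ c`, and at least `(log |d|) ^ (2 - ε)` primes
`p < (log |d|) ^ 2 (log log |d|) ^ 2` split in it.
-/

set_option autoImplicit false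

open Polynomial Filter

namespace Pool.Agent.Results.MP_aaa0df_nt.FieldsNearPowers

open Pool.Agent.V11001.KM (Fast Near)

instance : Countable ℤ[X] := by
  rw [← Cardinal.mk_le_aleph0_iff]
  exact Polynomial.cardinalMk_le_max.trans (by simp)

/-- fundamental discriminants (including `1`), as in the frozen statements -/
def Fund (d : ℤ) : Prop := (d % 4 = 1 ∧ Squarefree d) ∨
  (∃ m : ℤ, d = 4 * m ∧ (m % 4 = 2 ∨ m % 4 = 3) ∧ Squarefree m)

/-- the primes `p` with `P p` which split in the field of discriminant `d`: `p` does not divide `d`, and `d` is a square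
modulo `4 p` -/
def Split (P : ℕ → Prop) (d : ℤ) : Set ℕ := {p : ℕ | p.Prime ∧ P p ∧ ¬ ((p : ℤ) ∣ d) ∧ ∃ x : ℤ, (4 * (p : ℤ)) ∣ x ^ 2 - d}

/-- the properties of the fields `ℚ(√w)`, `w` an integer of size about a power of `n` -/
def Good (A ε c : ℝ) (n : ℕ) (w : ℤ) : Prop := ∀ d : ℤ, Fund d → IsSquare (w * d) →
  (d ≠ 1 ∧ w ≠ 0 ∧ (n : ℝ) ^ (1 / 16 : ℝ) < |(d : ℝ)|) ∧
  (∀ y : ℕ, Real.log |(d : ℝ)| ^ A ≤ y → (y : ℝ) ≤ |(d : ℝ)| ^ c →
    |((Split (fun p => p ≤ y) d).ncard : ℝ) - (Nat.primeCounting y : ℝ) / 2| ≤ ε * Nat.primeCounting y) ∧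
  Real.log |(d : ℝ)| ^ (2 - ε) ≤
    ((Split (fun p => (p : ℝ) < Real.log |(d : ℝ)| ^ 2 * Real.log (Real.log |(d : ℝ)|) ^ 2) d).ncard : ℝ)

/-- not a constant times a square of a polynomial -/
def NonSquare (f : ℤ[X]) : Prop := ∀ (c : ℚ) (g : ℚ[X]), f.map (Int.castRingHom ℚ) ≠ C c * g ^ 2

lemma count (f : ℤ[X]) (hf : NonSquare f) (A ε : ℝ) (hA : 1 < A) (hε : 0 < ε) :
    ∃ c : ℝ, 0 < c ∧ c ≤ 1 / 2 ∧ ∃ M : ℝ, ∀ X : ℝ, 1 ≤ X →
      ({t : ℕ | t ∈ {n : ℕ | ¬ Good A ε c n (f.eval (n : ℤ))} ∧ (t : ℝ) ≤ X}.ncard : ℝ) ≤ M * X ^ (1 - c) := by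
  classical
  obtain ⟨c, C₀, hc, hC₀, h⟩ := Pool.Agent.Results.MP_aaa0df_nt.PolynomialFamilies.result f hf A hA ε hε
  refine ⟨min c (1 / 2), lt_min hc (by norm_num), min_le_right _ _, ?_⟩
  exact ⟨_, Pool.Agent.V11326.WW.fam_count hc hC₀.le 1
      (fun n : ℕ => Good A ε (min c (1 / 2)) n (f.eval (n : ℤ)))
      (fun N n : ℕ => 1 ≤ n → ∀ d : ℤ, ((d % 4 = 1 ∧ Squarefree d) ∨
        (∃ m : ℤ, d = 4 * m ∧ (m % 4 = 2 ∨ m % 4 = 3) ∧ Squarefree m)) →
        IsSquare (f.eval (n : ℤ) * d) →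
        (d ≠ 1 ∧ f.eval (n : ℤ) ≠ 0 ∧ (N : ℝ) ^ (1 / 16 : ℝ) < |(d : ℝ)|) ∧
        (∀ y : ℕ, Real.log |(d : ℝ)| ^ A ≤ y → (y : ℝ) ≤ |(d : ℝ)| ^ c →
          |(Set.ncard {p : ℕ | p.Prime ∧ p ≤ y ∧ ¬ ((p : ℤ) ∣ d) ∧
            ∃ x : ℤ, (4 * (p : ℤ)) ∣ x ^ 2 - d} : ℝ) - (Nat.primeCounting y : ℝ) / 2| ≤
              ε * Nat.primeCounting y) ∧
        Real.log |(d : ℝ)| ^ (2 - ε) ≤ (Set.ncard {p : ℕ | p.Prime ∧
            ((p : ℝ) < Real.log |(d : ℝ)| ^ 2 * Real.log (Real.log |(d : ℝ)|) ^ 2) ∧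
            ¬ ((p : ℤ) ∣ d) ∧ ∃ x : ℤ, (4 * (p : ℤ)) ∣ x ^ 2 - d} : ℝ))
      (by
        intro N n hN hn1 hn2 hQ d hd hsq
        have hN1 : (1 : ℝ) ≤ N := hN
        have hnN : (n : ℝ) ≤ N := by exact_mod_cast hn2
        have hn3 : (1 : ℝ) ≤ n := (Real.one_le_rpow hN1 (by norm_num)).trans hn1
        have hn4 : 1 ≤ n := by exact_mod_cast hn3
        obtain ⟨⟨h1, h2, h3⟩, h4, h5⟩ := hQ hn4 d hd hsq
        refine ⟨⟨h1, h2, lt_of_le_of_lt ?_ h3⟩, fun y hy1 hy2 => h4 y hy1 (hy2.trans ?_), h5⟩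
        · exact Real.rpow_le_rpow (by linarith) hnN (by norm_num)
        · have h6 : (1 : ℝ) ≤ |(d : ℝ)| := (Real.one_le_rpow hN1 (by norm_num)).trans h3.le
          exact Real.rpow_le_rpow_of_exponent_le h6 (min_le_left _ _))
      (fun N hN => by
        obtain ⟨E, h1, h2⟩ := h N hN
        exact ⟨E, h1, fun n hn hnE hn1 d hd hsq => h2 n hn1 hn hnE d hd hsq⟩)⟩

/-- **Theorem.** There are exponents `0 < c ≤ 1 / 2`, depending on an integer polynomial `f` and on `A` and `ε` only, with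
the following property. Let `ν m / log m → ∞`, for example `ν m = m`, and let `U` be a countable set of real numbers. For
`f ∈ ℤ[X]` which is not a constant times a square of a polynomial, `A > 1` and `ε > 0` we consider the natural numbers `n`
which do NOT have the following property: the field of discriminant `d`, where `f(n) d` is a square (the field
`ℚ(√(f(n)))`), has `|d| > n ^ (1/16)`; the number of the primes `p ≤ y` which split is `π(y) / 2` up to `ε π(y)` for all `y`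
with `(log |d|) ^ A ≤ y ≤ |d| ^ c`; and at least `(log |d|) ^ (2 - ε)` primes `p < (log |d|) ^ 2 (log log |d|) ^ 2` split.
(1) For `θ < 1`, all `x > 1` outside of a set of Hausdorff dimension at most `(1 - c) / (1 - θ)` and all `y > 0` in `U` only
finitely many of these `n` satisfy `|n - y x ^ (ν m)| ≤ x ^ (θ ν m)` for some `m`. (2) For almost every `x > 1` this holds
for all `y > 0` in `U`, ALL such `f`, all rational `A > 1`, `ε > 0` and all `θ < c`. -/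
theorem result :
    ∃ c : ℤ[X] → ℝ → ℝ → ℝ, (∀ f A ε, 0 < c f A ε ∧ c f A ε ≤ 1 / 2) ∧
      ∀ ν : ℕ → ℝ, Fast ν → ∀ U : Set ℝ, U.Countable →
      (∀ f : ℤ[X], NonSquare f → ∀ A ε θ : ℝ, 1 < A → 0 < ε → θ < 1 →
        ∃ E : Set ℝ, dimH E ≤ ENNReal.ofReal ((1 - c f A ε) / (1 - θ)) ∧
          ∀ x : ℝ, 1 < x → x ∉ E → ∀ y ∈ U, 0 < y →
            {n : ℕ | ¬ Good A ε (c f A ε) n (f.eval (n : ℤ)) ∧ Near ν θ y x (n : ℝ)}.Finite) ∧
      (∀ᵐ x : ℝ, 1 < x → ∀ y ∈ U, 0 < y → ∀ f : ℤ[X], NonSquare f → ∀ A ε : ℚ, 1 < A → 0 < ε →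
        ∀ θ : ℝ, θ < c f A ε →
          {n : ℕ | ¬ Good A ε (c f A ε) n (f.eval (n : ℤ)) ∧ Near ν θ y x (n : ℝ)}.Finite) := by
  classical
  have hex : ∀ (f : ℤ[X]) (A ε : ℝ), ∃ c : ℝ, (0 < c ∧ c ≤ 1 / 2) ∧ (NonSquare f → 1 < A → 0 < ε →
      ∃ M : ℝ, ∀ X : ℝ, 1 ≤ X →
        ({t : ℕ | t ∈ {n : ℕ | ¬ Good A ε c n (f.eval (n : ℤ))} ∧ (t : ℝ) ≤ X}.ncard : ℝ) ≤ M * X ^ (1 - c)) := by
    intro f A ε
    by_cases h : NonSquare f ∧ 1 < A ∧ 0 < ε
    · obtain ⟨c, h1, h2, h3⟩ := count f h.1 A ε h.2.1 h.2.2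
      exact ⟨c, ⟨h1, h2⟩, fun _ _ _ => h3⟩
    · exact ⟨1 / 2, ⟨by norm_num, le_rfl⟩, fun a b c => absurd ⟨a, b, c⟩ h⟩
  choose c hc hcount using hex
  refine ⟨c, hc, fun ν hν U hU => ⟨fun f hf A ε θ hA hε hθ => ?_, ?_⟩⟩
  · obtain ⟨E, hE1, hE2⟩ := (Pool.Agent.V11153.NearW.nat_near (ι := Unit)
      (fun _ => {n : ℕ | ¬ Good A ε (c f A ε) n (f.eval (n : ℤ))}) (s := 1 - c f A ε) (by linarith [(hc f A ε).2])
      (fun _ => hcount f A ε hf hA hε) hν U hU).1 θ hθ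
    exact ⟨E, hE1, fun x hx hxE y hy hy0 => hE2 x hx hxE y hy hy0 ()⟩
  · have hall : ∀ᵐ x : ℝ, ∀ (f : ℤ[X]) (A ε : ℚ), NonSquare f → 1 < A → 0 < ε → 1 < x →
        ∀ θ : ℝ, θ < c f A ε → ∀ y ∈ U, 0 < y →
          {n : ℕ | ¬ Good A ε (c f A ε) n (f.eval (n : ℤ)) ∧ Near ν θ y x (n : ℝ)}.Finite := by
      rw [MeasureTheory.ae_all_iff]
      intro f
      rw [MeasureTheory.ae_all_iff]
      intro A
      rw [MeasureTheory.ae_all_iff]
      intro ε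
      by_cases h : NonSquare f ∧ 1 < A ∧ 0 < ε
      · filter_upwards [(Pool.Agent.V11153.NearW.nat_near (ι := Unit)
          (fun _ => {n : ℕ | ¬ Good A ε (c f A ε) n (f.eval (n : ℤ))}) (s := 1 - c f A ε)
          (by linarith [(hc f A ε).2])
          (fun _ => hcount f A ε h.1 (by exact_mod_cast h.2.1) (by exact_mod_cast h.2.2)) hν U hU).2]
          with x hx _ _ _ hx1 θ hθ y hy hy0
        exact hx hx1 θ (by linarith) y hy hy0 ()
      · exact Eventually.of_forall fun x a b c => absurd ⟨a, b, c⟩ h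
    filter_upwards [hall] with x hx hx1 y hy hy0 f hf A ε hA hε θ hθ
    exact hx f A ε hf hA hε hx1 θ hθ y hy hy0

end Pool.Agent.Results.MP_aaa0df_nt.FieldsNearPowers
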